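import Pool.Agent.Y507.LS2.Stm

set_option autoImplicit false

/-! # LS-SYM (job 10035, helper96): symmetric difference of a set with interval sections and its
translate (adaptation of Pool.Agent.Y188.LS.Shift) -/

open MeasureTheory Set Filter
open scoped ENNReal Topology

namespace Pool.Agent.Y96.LS2

open Pool.Agent.Y507.LS2

lemma vol_small (S : Set ℝ) (h : ℝ) (hS : ∀ t ∈ S, ∀ t' ∈ S, t ≤ t' → t' - t ≤ |h|) :
    volume S ≤ ENNReal.ofReal |h| := by
  refine (Real.volume_le_diam S).trans ?_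
  apply Metric.ediam_le
  intro t ht t' ht'
  rw [edist_dist, Real.dist_eq]
  apply ENNReal.ofReal_le_ofReal
  rcases le_total t t' with h1 | h1
  · rw [abs_sub_comm, abs_of_nonneg (sub_nonneg.mpr h1)]
    exact hS t ht t' ht' h1
  · rw [abs_of_nonneg (sub_nonneg.mpr h1)]
    exact hS t' ht' t ht h1

lemma vol_A (T : Set ℝ) (hT : OrdConnected T) (h : ℝ) :
    volume {t | t + h ∈ T ∧ t ∉ T} ≤ ENNReal.ofReal |h| := by
  apply vol_small
  rintro t ⟨h1, h2⟩ t' ⟨h3, h4⟩ htt
  by_contra hcon
  push Not at hcon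
  rcases le_total 0 h with hh | hh
  · rw [abs_of_nonneg hh] at hcon
    exact h4 (hT.out h1 h3 ⟨by linarith, by linarith⟩)
  · rw [abs_of_nonpos hh] at hcon
    exact h2 (hT.out h1 h3 ⟨by linarith, by linarith⟩)

lemma vol_B (T : Set ℝ) (hT : OrdConnected T) (h : ℝ) :
    volume {t | t ∈ T ∧ t + h ∉ T} ≤ ENNReal.ofReal |h| := by
  apply vol_small
  rintro t ⟨h1, h2⟩ t' ⟨h3, h4⟩ htt
  by_contra hcon
  push Not at hcon
  rcases le_total 0 h with hh | hh
  · rw [abs_of_nonneg hh] at hcon
    exact h2 (hT.out h1 h3 ⟨by linarith, by linarith⟩)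
  · rw [abs_of_nonpos hh] at hcon
    exact h4 (hT.out h1 h3 ⟨by linarith, by linarith⟩)

lemma insert_add {k : ℕ} (i : Fin (k + 1)) (t h : ℝ) (z : Fin k → ℝ) :
    (i.insertNth t z : Fin (k + 1) → ℝ) + Pi.single i h = i.insertNth (t + h) z := by
  funext j
  refine Fin.succAboveCases i ?_ (fun j' => ?_) j
  · simp
  · simp

lemma update_insert {k : ℕ} (i : Fin (k + 1)) (t t' : ℝ) (z : Fin k → ℝ) :
    Function.update (i.insertNth t z : Fin (k + 1) → ℝ) i t' = i.insertNth t' z := by
  funext j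
  refine Fin.succAboveCases i ?_ (fun j' => ?_) j
  · simp
  · simp

theorem thm : S_SYM := by
  intro m S c l hS hl hbox hT i h
  obtain ⟨k, rfl⟩ : ∃ k, m = k + 1 := ⟨m - 1, by have := i.pos; omega⟩
  set e := MeasurableEquiv.piFinSuccAbove (fun _ : Fin (k + 1) => ℝ) i with he
  have hmp : MeasurePreserving e.symm volume volume :=
    (volume_preserving_piFinSuccAbove (fun _ : Fin (k + 1) => ℝ) i).symm
  have hes : ∀ (t : ℝ) (z : Fin k → ℝ), e.symm (t, z) = i.insertNth t z := fun t z => rfl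
  set D : Set (Fin (k + 1) → ℝ) := {y | ¬(y + Pi.single i h ∈ S ↔ y ∈ S)} with hD
  have hS' : MeasurableSet {y : Fin (k + 1) → ℝ | y + Pi.single i h ∈ S} :=
    (measurable_id.add_const _) hS
  have hDm : MeasurableSet D := by
    have e : D = ({y | y + Pi.single i h ∈ S} ∩ Sᶜ) ∪ ({y | y + Pi.single i h ∈ S}ᶜ ∩ S) := by
      ext y
      by_cases h1 : y + Pi.single i h ∈ S <;> by_cases h2 : y ∈ S <;> simp [hD, h1, h2]
    rw [e]
    exact (hS'.inter hS.compl).union (hS'.compl.inter hS)
  set Φ : (Fin (k + 1) → ℝ) → ℝ≥0∞ := D.indicator (fun _ => 1) with hΦ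
  have hΦm : Measurable Φ := measurable_const.indicator hDm
  have h0 : volume D = ∫⁻ y, Φ y := by
    rw [hΦ, lintegral_indicator hDm]
    simp
  have h1 : ∫⁻ y, Φ y = ∫⁻ z : Fin k → ℝ, ∫⁻ t : ℝ, Φ (i.insertNth t z) := by
    rw [← hmp.lintegral_comp hΦm]
    have h2 : (volume : Measure (ℝ × (Fin k → ℝ))) = (volume : Measure ℝ).prod volume := rfl
    rw [h2, lintegral_prod_symm (fun a : ℝ × (Fin k → ℝ) => Φ (e.symm a))
      (hΦm.comp e.symm.measurable).aemeasurable]
    rfl
  show volume D ≤ _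
  rw [h0, h1]
  set BX : Set (Fin k → ℝ) := Icc (fun j => c (i.succAbove j))
    (fun j => c (i.succAbove j) + l (i.succAbove j)) with hBX
  have h2 : ∀ z : Fin k → ℝ, ∫⁻ t : ℝ, Φ (i.insertNth t z) ≤
      BX.indicator (fun _ => ENNReal.ofReal (2 * |h|)) z := by
    intro z
    set T : Set ℝ := {t | (i.insertNth t z : Fin (k + 1) → ℝ) ∈ S} with hTz
    have hTo : OrdConnected T := by
      have h4 := hT (i.insertNth 0 z) i
      simp only [update_insert] at h4
      exact h4
    have hDt : ∀ t : ℝ, (i.insertNth t z : Fin (k + 1) → ℝ) ∈ D ↔ ¬(t + h ∈ T ↔ t ∈ T) := by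
      intro t
      simp only [hD, hTz, mem_ofPred_eq, insert_add]
    have hins : Measurable fun t : ℝ => (i.insertNth t z : Fin (k + 1) → ℝ) := by
      have : (fun t : ℝ => (i.insertNth t z : Fin (k + 1) → ℝ)) = fun t => e.symm (t, z) := rfl
      rw [this]
      exact e.symm.measurable.comp (measurable_id.prodMk measurable_const)
    have h3 : ∫⁻ t : ℝ, Φ (i.insertNth t z) = volume {t : ℝ | (i.insertNth t z : Fin (k + 1) → ℝ) ∈ D} := by
      have h4 : ∀ t : ℝ, Φ (i.insertNth t z) =
          {t : ℝ | (i.insertNth t z : Fin (k + 1) → ℝ) ∈ D}.indicator (fun _ => 1) t := fun t => rfl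
      have h5 : MeasurableSet {t : ℝ | (i.insertNth t z : Fin (k + 1) → ℝ) ∈ D} := hins hDm
      simp_rw [h4]
      rw [lintegral_indicator h5]
      simp
    rw [h3]
    by_cases hz : z ∈ BX
    · rw [indicator_of_mem hz]
      have h3 : {t : ℝ | (i.insertNth t z : Fin (k + 1) → ℝ) ∈ D} ⊆
          {t | t + h ∈ T ∧ t ∉ T} ∪ {t | t ∈ T ∧ t + h ∉ T} := by
        intro t ht
        have h4 := (hDt t).1 ht
        by_cases h5 : t ∈ T <;> by_cases h6 : t + h ∈ T
        · exact absurd (by simp [h5, h6]) h4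
        · exact Or.inr ⟨h5, h6⟩
        · exact Or.inl ⟨h6, h5⟩
        · exact absurd (by simp [h5, h6]) h4
      refine (measure_mono h3).trans ((measure_union_le _ _).trans ?_)
      refine (add_le_add (vol_A _ hTo h) (vol_B _ hTo h)).trans ?_
      rw [← ENNReal.ofReal_add (abs_nonneg _) (abs_nonneg _)]
      apply ENNReal.ofReal_le_ofReal
      linarith
    · rw [indicator_of_notMem hz]
      have h4 : ∀ t, t ∉ T := by
        intro t ht
        apply hz
        have h5 := hbox _ ht
        constructor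
        · intro j
          have := (h5 (i.succAbove j)).1
          simpa using this
        · intro j
          have := (h5 (i.succAbove j)).2
          simpa using this
      have h5 : {t : ℝ | (i.insertNth t z : Fin (k + 1) → ℝ) ∈ D} = ∅ := by
        rw [eq_empty_iff_forall_notMem]
        intro t ht
        exact (hDt t).1 ht (by simp [h4])
      rw [h5, measure_empty]
  refine (lintegral_mono h2).trans ?_
  rw [lintegral_indicator measurableSet_Icc, setLIntegral_const, Real.volume_Icc_pi]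
  have h3 : ∀ j : Fin k, ENNReal.ofReal (c (i.succAbove j) + l (i.succAbove j) -
      c (i.succAbove j)) = ENNReal.ofReal (l (i.succAbove j)) := by
    intro j
    congr 1
    ring
  simp only [h3]
  rw [← ENNReal.ofReal_prod_of_nonneg (fun j _ => (hl _).le), ← ENNReal.ofReal_mul (by positivity)]
  apply ENNReal.ofReal_le_ofReal
  rw [Fin.prod_univ_succAbove l i]
  have h5 : (l i * ∏ j : Fin k, l (i.succAbove j)) * (|h| / l i) =
      (∏ j : Fin k, l (i.succAbove j)) * |h| := by
    have := (hl i).ne'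
    field_simp
  rw [h5]
  apply le_of_eq
  ring

end Pool.Agent.Y96.LS2
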